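import Pool.Agent.Lib.MP_77266e_gt.Weight

/-!
# Spaces of small character
-/

namespace Pool.Agent.Lib.MP_77266e_gt

open Set Topology Filter Cardinal

universe u

/-- Families of subsets of `ℕ` indexed by `ι` with infinite finite intersections have an infinite
pseudointersection: the cardinality of `ι` is less than the pseudointersection number. -/
def PI (ι : Type u) : Prop :=
  ∀ A : ι → Set ℕ, (∀ t : Finset ι, (⋂ i ∈ t, A i).Infinite) →
    ∃ B : Set ℕ, B.Infinite ∧ ∀ i, (B \ A i).Finite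

lemma rs_length (z : ℕ → Bool) (n : ℕ) : (rs z n).length = n := by
  induction n with
  | zero => rfl
  | succ n ih =>
    show (z n :: rs z n).length = n + 1
    rw [List.length_cons, ih]

lemma cyl_nonempty (s : List Bool) : ∃ z : ℕ → Bool, rs z s.length = s := by
  induction s with
  | nil => exact ⟨fun _ => false, rfl⟩
  | cons b s ih =>
    obtain ⟨z, hz⟩ := ih
    refine ⟨Function.update z s.length b, ?_⟩
    show Function.update z s.length b s.length :: rs (Function.update z s.length b) s.length = b :: s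
    rw [Function.update_self, rs_congr (w := z) fun i hi => Function.update_of_ne hi.ne _ _, hz]

lemma rs_inj {w v : ℕ → Bool} {n : ℕ} (h : rs w n = rs v n) : ∀ i, i < n → w i = v i := by
  induction n with
  | zero => intro i hi; omega
  | succ n ih =>
    intro i hi
    have h1 : w n :: rs w n = v n :: rs v n := h
    rw [List.cons_eq_cons] at h1
    rcases Nat.lt_succ_iff_lt_or_eq.1 hi with h2 | h2
    · exact ih h1.2 i h2
    · rw [h2]; exact h1.1

section

variable {E : Type u} [TopologicalSpace E] [CompactSpace E] [T2Space E] {g : E → ℕ → Bool}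

lemma char_openSeq (hg : Continuous g) (hs : Function.Surjective g)
    (hirr : ∀ E₀ : Set E, E₀ ≠ Set.univ → IsClosed E₀ → g '' E₀ ≠ Set.univ)
    (hch : ∀ e : E, ∃ 𝒱 : Set (Set E), (∀ V ∈ 𝒱, V ∈ 𝓝 e) ∧ (∀ U ∈ 𝓝 e, ∃ V ∈ 𝒱, V ⊆ U) ∧
      PI 𝒱) : OpenSeq E := by
  rintro O hO ⟨e, he⟩
  obtain ⟨𝒱, h1, h2, h3⟩ := hch e
  let c : ℕ ≃ List Bool := (nonempty_equiv_of_countable (α := ℕ) (β := List Bool)).some
  let W : ℕ → Set E := fun n => {x | rs (g x) (c n).length = c n}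
  have hW : ∀ n, IsOpen (W n) := fun n => (isOpen_rs _ (c n)).preimage hg
  have hW' : ∀ n, (W n).Nonempty := fun n => by
    obtain ⟨z, hz⟩ := cyl_nonempty (c n)
    obtain ⟨x, rfl⟩ := hs z
    exact ⟨x, hz⟩
  obtain ⟨B, hB, hB'⟩ := h3 (fun V => {n | W n ⊆ V.1}) fun t => by
    have h4 : (⋂ V ∈ t, V.1) ∈ 𝓝 e := (Filter.biInter_finset_mem _).2 fun V _ => h1 _ V.2
    have h5 : (interior (⋂ V ∈ t, V.1)).Nonempty := ⟨e, mem_interior_iff_mem_nhds.2 h4⟩
    obtain ⟨z, hz⟩ := sh_nonempty hirr isOpen_interior h5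
    obtain ⟨k, hk⟩ := cantor_cyl _ (sh_open hg isOpen_interior) z hz
    have h6 : ∀ m, k ≤ m → c.symm (rs z m) ∈ ⋂ V ∈ t, {n | W n ⊆ V.1} := by
      intro m hm
      refine mem_iInter₂.2 fun V hV x hx => ?_
      have h7 : rs (g x) (c (c.symm (rs z m))).length = c (c.symm (rs z m)) := hx
      rw [Equiv.apply_symm_apply, rs_length] at h7
      have h8 : g x ∈ sh g (interior (⋂ V ∈ t, V.1)) :=
        hk _ fun i hi => rs_inj h7 i (by omega)
      exact mem_iInter₂.1 (interior_subset (mem_of_sh h8)) V hV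
    refine Set.infinite_of_injective_forall_mem (f := fun m => c.symm (rs z (m + k))) ?_
      fun m => h6 _ (Nat.le_add_left k m)
    intro m m' hmm
    have h9 := congrArg List.length (c.symm.injective hmm)
    rw [rs_length, rs_length] at h9
    exact Nat.add_right_cancel h9
  refine ⟨e, he, fun n => W (hB.natEmbedding B n), fun n => hW _, fun n => hW' _,
    fun U hU heU => ?_⟩
  obtain ⟨V, hV, hVU⟩ := h2 U (hU.mem_nhds heU)
  have h4 := hB' ⟨V, hV⟩
  have h5 : {n : ℕ | ((hB.natEmbedding B n : B) : ℕ) ∈ B \ {n | W n ⊆ V}}.Finite :=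
    h4.preimage ((Subtype.val_injective.comp (hB.natEmbedding B).injective).injOn)
  obtain ⟨N, hN⟩ := h5.bddAbove
  refine ⟨N + 1, fun n hn => ?_⟩
  have h6 : ((hB.natEmbedding B n : B) : ℕ) ∈ {n | W n ⊆ V} := by
    by_contra hcon
    have h7 := hN ⟨(hB.natEmbedding B n).2, hcon⟩
    omega
  exact Subset.trans h6 hVU

end

/-- c.o. spaces of small character -/
theorem scat_of_char {X : Type u} [TopologicalSpace X] [CompactSpace X] [T2Space X]
    (hco : ∀ F : Set X, IsClosed F → ∃ U : Set X, IsClopen U ∧ Nonempty (F ≃ₜ U))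
    (hch : ∀ x : X, ∃ 𝒱 : Set (Set X), (∀ V ∈ 𝒱, V ∈ 𝓝 x) ∧ (∀ U ∈ 𝓝 x, ∃ V ∈ 𝒱, V ⊆ U) ∧
      PI 𝒱)
    (hD : ∀ D ⊆ kernel X, (∀ x ∈ D, ∃ V : Set X, IsOpen V ∧ V ∩ D = {x}) → #D ≠ 𝔠) :
    Scat X := by
  classical
  by_contra h
  obtain ⟨D, tD, cD, t2D, j, π, hj, hj', hπ, hπ'⟩ :=
    exists_map isClosed_kernel (kernel_of_not_scat h) kernel_crowded
  obtain ⟨E, cE, g, hg, hgs, hgi⟩ := exists_irr hπ hπ'
  have hne : Nonempty E := ⟨(hgs fun _ => false).choose⟩
  have hje : Continuous fun e : E => j e.1 := hj.comp continuous_subtype_val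
  have hji : Function.Injective fun e : E => j e.1 := fun x y hxy => Subtype.ext (hj' hxy)
  have hemb : IsEmbedding fun e : E => j e.1 := emb_of_continuous_injective hje hji
  have hH : OpenSeq E := by
    refine char_openSeq hg hgs hgi fun e => ?_
    obtain ⟨𝒱, h1, h2, h3⟩ := hch (j e.1)
    refine ⟨(fun V => (fun e : E => j e.1) ⁻¹' V) '' 𝒱, ?_, ?_, ?_⟩
    · rintro _ ⟨V, hV, rfl⟩
      exact hje.continuousAt.preimage_mem_nhds (h1 V hV)
    · intro U hU
      rw [hemb.nhds_eq_comap] at hU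
      obtain ⟨U', hU', hU''⟩ := Filter.mem_comap.1 hU
      obtain ⟨V, hV, hVU⟩ := h2 U' hU'
      exact ⟨_, ⟨V, hV, rfl⟩, (preimage_mono hVU).trans hU''⟩
    · intro A hA
      have h4 : ∀ V : 𝒱, ((fun e : E => j e.1) ⁻¹' V.1) ∈
          (fun V => (fun e : E => j e.1) ⁻¹' V) '' 𝒱 := fun V => ⟨V.1, V.2, rfl⟩
      obtain ⟨B, hB, hB'⟩ := h3 (fun V => A ⟨_, h4 V⟩) fun t => by
        refine (hA (t.image fun V => ⟨_, h4 V⟩)).mono fun n hn => ?_
        refine mem_iInter₂.2 fun V hV => ?_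
        exact mem_iInter₂.1 hn _ (Finset.mem_image_of_mem _ hV)
      refine ⟨B, hB, ?_⟩
      rintro ⟨_, V, hV, rfl⟩
      exact hB' ⟨V, hV⟩
  obtain ⟨D₀, hD0, hD1, hD2⟩ := main_card hco (irr_crowded hg hgs hgi) hH
    (fun e : E => j e.1) hje hji
  exact hD D₀ hD0 hD2 hD1

end Pool.Agent.Lib.MP_77266e_gt
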