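import Pool.Agent.Lib.MP_77266e_gt.Main

/-!
# Consequences
-/

namespace Pool.Agent.Lib.MP_77266e_gt

open Set Topology Filter Cardinal

universe u

/-- In a compact Hausdorff space, `G_δ` points have countable character. -/
lemma nhds_cg {C : Type u} [TopologicalSpace C] [CompactSpace C] [T2Space C] {y : C}
    (h : IsGδ ({y} : Set C)) : (𝓝 y).IsCountablyGenerated := by
  obtain ⟨U, hU, hUy⟩ := h.eq_iInter_nat
  have hy : ∀ n, y ∈ U n := fun n => by
    have h1 : y ∈ ⋂ n, U n := by rw [← hUy]; exact mem_singleton y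
    exact mem_iInter.1 h1 n
  have step : ∀ n, ∃ K ∈ 𝓝 y, IsClosed K ∧ K ⊆ U n := fun n =>
    exists_mem_nhds_isClosed_subset ((hU n).mem_nhds (hy n))
  choose K hK hKc hKU using step
  have hb : (𝓝 y).HasBasis (fun _ : ℕ => True) (fun n => ⋂ k ∈ Finset.range (n + 1), K k) := by
    refine ⟨fun V => ⟨fun hV => ?_, ?_⟩⟩
    · obtain ⟨V', hV'V, hV'o, hy'⟩ := mem_nhds_iff.1 hV
      obtain ⟨t, ht⟩ := hV'o.isClosed_compl.isCompact.elim_finite_subcover (fun n => (K n)ᶜ)
        (fun n => (hKc n).isOpen_compl) (fun z hz => by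
          by_contra hcon
          have h1 : z ∈ ⋂ n, U n := mem_iInter.2 fun n => hKU n (by
            by_contra h2
            exact hcon (mem_iUnion.2 ⟨n, h2⟩))
          rw [← hUy] at h1
          apply hz
          rw [h1]; exact hy')
      refine ⟨t.sup id, trivial, fun z hz => hV'V ?_⟩
      by_contra hz'
      obtain ⟨n, hn, hn'⟩ := mem_iUnion₂.1 (ht hz')
      apply hn'
      refine mem_iInter₂.1 hz n (Finset.mem_range.2 (Nat.lt_succ_iff.2 ?_))
      exact Finset.le_sup (f := id) hn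
    · rintro ⟨n, -, hn⟩
      exact mem_of_superset ((Filter.biInter_finset_mem _).2 fun k _ => hK k) hn
  exact hb.isCountablyGenerated

section

variable {X : Type u} [TopologicalSpace X] [CompactSpace X] [T2Space X]

/-- scattered spaces -/
def Scat (X : Type u) [TopologicalSpace X] : Prop :=
  ∀ S : Set X, S.Nonempty → ∃ x ∈ S, ∃ V : Set X, IsOpen V ∧ V ∩ S = {x}

omit [CompactSpace X] [T2Space X] in
lemma kernel_of_not_scat (h : ¬ Scat X) : (kernel X).Nonempty := by
  unfold Scat at h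
  push Not at h
  obtain ⟨S, ⟨x, hx⟩, hS⟩ := h
  refine ⟨x, S, fun z hz => ?_, hx⟩
  rw [mem_closure_iff]
  intro V hV hzV
  by_contra hcon
  apply hS z hz V hV
  ext w
  constructor
  · intro hw
    by_contra hne
    exact hcon ⟨w, hw.1, hw.2, hne⟩
  · rintro rfl
    exact ⟨hzV, hz⟩

/-- closed crowded subsets -/
theorem main_closed
    (hco : ∀ F : Set X, IsClosed F → ∃ U : Set X, IsClopen U ∧ Nonempty (F ≃ₜ U))
    (C : Set X) (hC : IsClosed C) (hne : C.Nonempty) (hcr : ∀ x ∈ C, x ∈ closure (C \ {x}))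
    (hH : OpenSeq C) :
    ∃ D ⊆ kernel X, #D = 𝔠 ∧ ∀ x ∈ D, ∃ V : Set X, IsOpen V ∧ V ∩ D = {x} := by
  have h1 : CompactSpace C := isCompact_iff_compactSpace.1 hC.isCompact
  have h2 : Nonempty C := hne.to_subtype
  exact main_card hco (crowded_coe hcr) hH Subtype.val continuous_subtype_val
    Subtype.val_injective

/-- spaces in which every nonempty closed set has a relatively `G_δ` point -/
lemma openSeq_of_gd (hX : ∀ F : Set X, IsClosed F → F.Nonempty → ∃ x : F, IsGδ ({x} : Set F))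
    (C : Set X) (hC : IsClosed C) : OpenSeq C := by
  have h1 : CompactSpace C := isCompact_iff_compactSpace.1 hC.isCompact
  refine openSeq_of_countable fun O hO ⟨x₀, hx₀⟩ => ?_
  obtain ⟨f, hf0, hf1, -⟩ := exists_continuous_zero_one_of_isClosed
    (isClosed_singleton (x := x₀)) hO.isClosed_compl
    (Set.disjoint_left.2 fun z hz hz' => hz' (by rw [mem_singleton_iff.1 hz]; exact hx₀))
  let Z : Set C := {c | f c = 0}
  have hZc : IsClosed Z := isClosed_eq f.continuous continuous_const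
  have hZ' : IsClosed (Subtype.val '' Z) := hC.isClosedEmbedding_subtypeVal.isClosedMap Z hZc
  obtain ⟨⟨y', hy'⟩, hyg⟩ := hX _ hZ' ⟨x₀.1, x₀, hf0 (mem_singleton x₀), rfl⟩
  obtain ⟨y, hyZ, rfl⟩ := hy'
  have hyO : y ∈ O := by
    by_contra hcon
    have h2 : f y = 1 := hf1 hcon
    have h3 : f y = 0 := hyZ
    rw [h2] at h3
    exact one_ne_zero h3
  refine ⟨y, hyO, nhds_cg ?_⟩
  obtain ⟨U, hU, hUy⟩ := hyg.eq_iInter_nat
  choose g hg hgU using fun n => isOpen_induced_iff.1 (hU n)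
  have h4 : ({y} : Set C) = (⋂ n, (Subtype.val ⁻¹' g n : Set C)) ∩ Z := by
    ext c
    constructor
    · rintro rfl
      refine ⟨mem_iInter.2 fun n => ?_, hyZ⟩
      have h5 : (⟨c.1, ⟨c, hyZ, rfl⟩⟩ : ↥(Subtype.val '' Z)) ∈ ⋂ n, U n := by
        rw [← hUy]; exact mem_singleton _
      have h6 := mem_iInter.1 h5 n
      rw [← hgU n] at h6
      exact h6
    · rintro ⟨hc1, hc2⟩
      have h5 : (⟨c.1, ⟨c, hc2, rfl⟩⟩ : ↥(Subtype.val '' Z)) ∈ ⋂ n, U n := by
        refine mem_iInter.2 fun n => ?_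
        rw [← hgU n]
        exact mem_iInter.1 hc1 n
      rw [← hUy] at h5
      have h6 := congrArg (Subtype.val : ↥(Subtype.val '' Z) → X) (mem_singleton_iff.1 h5)
      exact Subtype.ext h6
  rw [h4]
  refine IsGδ.inter (.iInter_of_isOpen fun n => (hg n).preimage continuous_subtype_val) ?_
  have h7 : Z = ⋂ n : ℕ, {c : C | |f c| < 1 / ((n : ℝ) + 1)} := by
    ext c
    constructor
    · intro hc
      refine mem_iInter.2 fun n => ?_
      have h8 : f c = 0 := hc
      show |f c| < 1 / ((n : ℝ) + 1)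
      rw [h8, abs_zero]
      positivity
    · intro hc
      by_contra hne
      have h9 : 0 < |f c| := abs_pos.2 hne
      obtain ⟨n, hn⟩ := exists_nat_one_div_lt h9
      exact (lt_asymm hn (mem_iInter.1 hc n)).elim
  rw [h7]
  exact .iInter_of_isOpen fun n => isOpen_lt (continuous_abs.comp f.continuous) continuous_const

/-- c.o. spaces with `G_δ` points in all closed subsets -/
theorem scat_of_gd
    (hco : ∀ F : Set X, IsClosed F → ∃ U : Set X, IsClopen U ∧ Nonempty (F ≃ₜ U))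
    (hX : ∀ F : Set X, IsClosed F → F.Nonempty → ∃ x : F, IsGδ ({x} : Set F))
    (hD : ∀ D ⊆ kernel X, (∀ x ∈ D, ∃ V : Set X, IsOpen V ∧ V ∩ D = {x}) → #D ≠ 𝔠) :
    Scat X := by
  by_contra h
  obtain ⟨D, h1, h2, h3⟩ := main_closed hco (kernel X) isClosed_kernel (kernel_of_not_scat h)
    kernel_crowded (openSeq_of_gd hX _ isClosed_kernel)
  exact hD D h1 h3 h2

omit [CompactSpace X] in
/-- points of hereditarily Lindelöf subspaces -/
lemma gd_of_hl {P : Set X} (hP : IsHereditarilyLindelof P) (y : P) :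
    IsGδ ({y} : Set P) := by
  have h0 : IsLindelof (P \ {y.1}) := hP.isLindelof_subset sdiff_subset
  have h1 : ∀ z : X, ∃ A : Set X, z ∈ P \ {y.1} → IsOpen A ∧ z ∈ A ∧ y.1 ∉ closure A := by
    intro z
    by_cases hz : z ∈ P \ {y.1}
    · obtain ⟨A, B, hA, hB, hzA, hyB, hAB⟩ := t2_separation (show z ≠ y.1 from hz.2)
      refine ⟨A, fun _ => ⟨hA, hzA, fun h => ?_⟩⟩
      obtain ⟨w, hw, hw'⟩ := mem_closure_iff.1 h B hB hyB
      exact hAB.le_bot ⟨hw', hw⟩
    · exact ⟨∅, fun h => absurd h hz⟩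
  choose A hA using h1
  obtain ⟨t, htc, hts, ht⟩ := h0.elim_nhds_subcover A
    (fun z hz => (hA z hz).1.mem_nhds (hA z hz).2.1)
  have h2 : ({y} : Set P) = ⋂ z ∈ t, (Subtype.val ⁻¹' (closure (A z))ᶜ : Set P) := by
    ext c
    constructor
    · rintro rfl
      exact mem_iInter₂.2 fun z hz => (hA z (hts z hz)).2.2
    · intro hc
      by_contra hne
      obtain ⟨z, hz, hz'⟩ := mem_iUnion₂.1 (ht ⟨c.2, fun h => hne (Subtype.ext h)⟩)
      exact mem_iInter₂.1 hc z hz (subset_closure hz')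
  rw [h2]
  exact .biInter_of_isOpen htc fun z _ =>
    isClosed_closure.isOpen_compl.preimage continuous_subtype_val

omit [CompactSpace X] [T2Space X] in
lemma countable_of_hl {D : Set X} (hD : IsLindelof D)
    (h : ∀ x ∈ D, ∃ V : Set X, IsOpen V ∧ V ∩ D = {x}) : D.Countable := by
  have h1 : ∀ x : X, ∃ V : Set X, x ∈ D → IsOpen V ∧ V ∩ D = {x} := by
    intro x
    by_cases hx : x ∈ D
    · obtain ⟨V, hV⟩ := h x hx
      exact ⟨V, fun _ => hV⟩
    · exact ⟨∅, fun h => absurd h hx⟩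
  choose V hV using h1
  have hmem : ∀ x ∈ D, x ∈ V x := fun x hx => by
    have h2 : x ∈ V x ∩ D := by rw [(hV x hx).2]; exact mem_singleton x
    exact h2.1
  obtain ⟨t, htc, hts, ht⟩ := hD.elim_nhds_subcover V
    (fun x hx => (hV x hx).1.mem_nhds (hmem x hx))
  refine htc.mono fun x hx => ?_
  obtain ⟨z, hz, hz'⟩ := mem_iUnion₂.1 (ht hx)
  have h2 : x ∈ V z ∩ D := ⟨hz', hx⟩
  rw [(hV z (hts z hz)).2] at h2
  rw [mem_singleton_iff.1 h2]
  exact hz

/-- c.o. spaces whose kernel is hereditarily Lindelöf -/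
theorem scat_of_hl
    (hco : ∀ F : Set X, IsClosed F → ∃ U : Set X, IsClopen U ∧ Nonempty (F ≃ₜ U))
    (hX : IsHereditarilyLindelof (kernel X)) : Scat X := by
  by_contra h
  have hc : CompactSpace (kernel X) := isCompact_iff_compactSpace.1 isClosed_kernel.isCompact
  obtain ⟨D, h1, h2, h3⟩ := main_closed hco (kernel X) isClosed_kernel (kernel_of_not_scat h)
    kernel_crowded (openSeq_of_countable fun O _ ⟨y, hy⟩ => ⟨y, hy, nhds_cg (gd_of_hl hX y)⟩)
  have h4 : D.Countable := countable_of_hl (hX.isLindelof_subset h1) h3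
  have h5 : #D ≤ ℵ₀ := Cardinal.mk_le_aleph0_iff.2 h4.to_subtype
  rw [h2] at h5
  exact absurd h5 (not_le.2 Cardinal.aleph0_lt_continuum)

/-- hereditarily Lindelöf c.o. spaces are countable -/
theorem countable_of_hls [HereditarilyLindelofSpace X]
    (hco : ∀ F : Set X, IsClosed F → ∃ U : Set X, IsClopen U ∧ Nonempty (F ≃ₜ U)) :
    Countable X := by
  have hs : Scat X := scat_of_hl hco (fun t _ => HereditarilyLindelofSpace.isLindelof t)
  let W : Set X := ⋃₀ {V : Set X | IsOpen V ∧ V.Countable}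
  have hW : W.Countable := by
    have h0 : IsLindelof W := HereditarilyLindelofSpace.isLindelof W
    have h1 : ∀ x : X, ∃ V : Set X, x ∈ W → IsOpen V ∧ V.Countable ∧ x ∈ V := by
      intro x
      by_cases hx : x ∈ W
      · obtain ⟨V, hV, hxV⟩ := hx
        exact ⟨V, fun _ => ⟨hV.1, hV.2, hxV⟩⟩
      · exact ⟨∅, fun h => absurd h hx⟩
    choose V hV using h1
    obtain ⟨t, htc, hts, ht⟩ := h0.elim_nhds_subcover V
      (fun x hx => (hV x hx).1.mem_nhds (hV x hx).2.2)
    exact (htc.biUnion fun z hz => (hV z (hts z hz)).2.1).mono ht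
  have hall : W = Set.univ := by
    by_contra hne
    obtain ⟨x, hx, V, hV, hVx⟩ := hs Wᶜ (nonempty_compl.2 hne)
    apply hx
    have h2 : V ⊆ W ∪ {x} := by
      intro z hz
      by_cases hzW : z ∈ W
      · exact Or.inl hzW
      · right
        rw [← hVx]
        exact ⟨hz, hzW⟩
    have h3 : x ∈ V := by
      have h4 : x ∈ V ∩ Wᶜ := by rw [hVx]; exact mem_singleton x
      exact h4.1
    exact ⟨V, ⟨hV, (hW.union (countable_singleton x)).mono h2⟩, h3⟩
  rw [hall] at hW
  exact countable_univ_iff.1 hW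

end

end Pool.Agent.Lib.MP_77266e_gt
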