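import Pool.Agent.Lib.MP_77266e_gt.Wedge

/-!
# Continuum many local types of points

`sc T n`: points of Cantor-Bendixson rank `< n`, `cr T`: points with a crowded neighbourhood,
`qq T n`: points which are isolated among the remaining points and where the scattered part has
rank exactly `n + 1`. `good T A y` codes the set `A` by the sets `qq T n` accumulating at `y`.
-/

namespace Pool.Agent.Lib.MP_77266e_gt

open Set Topology Filter

universe u v w

/-- points of Cantor-Bendixson rank less than `n` -/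
def sc (T : Type u) [TopologicalSpace T] : ℕ → Set T
  | 0 => ∅
  | n + 1 => {x | ∃ V : Set T, IsOpen V ∧ x ∈ V ∧ V ⊆ insert x (sc T n)}

/-- points with a neighbourhood without isolated points -/
def cr (T : Type u) [TopologicalSpace T] : Set T :=
  {x | ∃ V : Set T, IsOpen V ∧ x ∈ V ∧ Disjoint V (sc T 1)}

/-- special points -/
def qq (T : Type u) [TopologicalSpace T] (n : ℕ) : Set T :=
  {x | x ∈ closure (cr T) ∧ x ∈ closure (sc T (n + 1) \ sc T n) ∧
    ∃ V : Set T, IsOpen V ∧ x ∈ V ∧ V ⊆ insert x (cr T ∪ sc T (n + 1))}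

/-- `A` is the set of `n` such that `qq T n` accumulates at `y`, and `y` is isolated in the set of
accumulation points of all special points -/
def good (T : Type u) [TopologicalSpace T] (A : Set ℕ) (y : T) : Prop :=
  (∀ n, y ∈ closure (qq T n \ {y}) ↔ n ∈ A) ∧
    ∃ V : Set T, IsOpen V ∧ y ∈ V ∧ ∀ z ∈ V, z ≠ y → z ∉ closure ((⋃ n, qq T n) \ {z})

section basic

variable {T : Type u} [TopologicalSpace T]

lemma sc_subset_succ (n : ℕ) : sc T n ⊆ sc T (n + 1) := by
  induction n with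
  | zero => exact empty_subset _
  | succ n ih =>
    rintro x ⟨V, hV, hx, h⟩
    exact ⟨V, hV, hx, h.trans (insert_subset_insert ih)⟩

lemma sc_mono : Monotone (sc T) := monotone_nat_of_le_succ sc_subset_succ

lemma isOpen_sc (n : ℕ) : IsOpen (sc T n) := by
  cases n with
  | zero => exact isOpen_empty
  | succ n =>
    rw [isOpen_iff_forall_mem_open]
    rintro x ⟨V, hV, hx, h⟩
    refine ⟨V, fun z hz => ?_, hV, hx⟩
    rcases h hz with rfl | h2
    · exact ⟨V, hV, hz, h⟩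
    · exact sc_subset_succ n h2

lemma isOpen_cr : IsOpen (cr T) := by
  rw [isOpen_iff_forall_mem_open]
  rintro x ⟨V, hV, hx, h⟩
  exact ⟨V, fun z hz => ⟨V, hV, hz, h⟩, hV, hx⟩

lemma disj_cr_sc (n : ℕ) : Disjoint (cr T) (sc T n) := by
  rw [Set.disjoint_left]
  induction n with
  | zero => exact fun _ _ h => h
  | succ n ih =>
    rintro x ⟨V, hV, hx, h⟩ ⟨V', hV', hx', h'⟩
    by_cases hz : ∃ z ∈ V ∩ V', z ≠ x
    · obtain ⟨z, hz, hzx⟩ := hz
      rcases h' hz.2 with h1 | h1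
      · exact hzx h1
      · exact ih ⟨V, hV, hz.1, h⟩ h1
    · push Not at hz
      refine h.le_bot ⟨hx, V ∩ V', hV.inter hV', ⟨hx, hx'⟩, fun z hz' => ?_⟩
      exact Or.inl (hz z hz')

lemma qq_notMem_cr {n : ℕ} {x : T} (h : x ∈ qq T n) : x ∉ cr T := by
  intro h1
  obtain ⟨z, hz, hz'⟩ := mem_closure_iff.1 h.2.1 _ isOpen_cr h1
  exact (disj_cr_sc (n + 1)).le_bot ⟨hz, hz'.1⟩

lemma qq_notMem_sc {n : ℕ} {x : T} (h : x ∈ qq T n) (k : ℕ) : x ∉ sc T k := by
  intro h1
  obtain ⟨z, hz, hz'⟩ := mem_closure_iff.1 h.1 _ (isOpen_sc k) h1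
  exact (disj_cr_sc k).le_bot ⟨hz', hz⟩

lemma qq_excl {n m : ℕ} {x : T} (h : x ∈ qq T n) (h' : x ∈ qq T m) : n = m := by
  have key : ∀ n m : ℕ, m < n → x ∈ qq T n → x ∈ qq T m → False := by
    intro n m hmn h h'
    obtain ⟨V, hV, hx, hs⟩ := h'.2.2
    obtain ⟨z, hz, hz1, hz2⟩ := mem_closure_iff.1 h.2.1 V hV hx
    rcases hs hz with h3 | h3 | h3
    · rw [h3] at hz1
      exact qq_notMem_sc h _ hz1
    · exact (disj_cr_sc (n + 1)).le_bot ⟨h3, hz1⟩
    · exact hz2 (sc_mono hmn h3)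
  rcases lt_trichotomy n m with h1 | h1 | h1
  · exact (key _ _ h1 h' h).elim
  · exact h1
  · exact (key _ _ h1 h h').elim

lemma qq_congr {n m : ℕ} (h : n = m) {x : T} (hx : x ∈ qq T n) : x ∈ qq T m := h ▸ hx

end basic

section emb

variable {T : Type u} [TopologicalSpace T] {T' : Type v} [TopologicalSpace T'] {f : T → T'}

lemma preimage_sc (hf : IsOpenEmbedding f) (n : ℕ) : f ⁻¹' (sc T' n) = sc T n := by
  induction n with
  | zero => rfl
  | succ n ih =>
    ext x
    constructor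
    · rintro ⟨V, hV, hx, h⟩
      refine ⟨f ⁻¹' V, hV.preimage hf.continuous, hx, fun z hz => ?_⟩
      rcases h hz with h1 | h1
      · exact Or.inl (hf.injective h1)
      · right
        rw [← ih]; exact h1
    · rintro ⟨V, hV, hx, h⟩
      refine ⟨f '' V, hf.isOpenMap V hV, mem_image_of_mem f hx, ?_⟩
      rintro _ ⟨z, hz, rfl⟩
      rcases h hz with h1 | h1
      · exact Or.inl (by rw [h1])
      · right
        rw [← ih] at h1; exact h1

lemma preimage_cr (hf : IsOpenEmbedding f) : f ⁻¹' (cr T') = cr T := by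
  have h1 := preimage_sc hf 1
  ext x
  constructor
  · rintro ⟨V, hV, hx, h⟩
    refine ⟨f ⁻¹' V, hV.preimage hf.continuous, hx, ?_⟩
    rw [← h1]
    exact h.preimage f
  · rintro ⟨V, hV, hx, h⟩
    refine ⟨f '' V, hf.isOpenMap V hV, mem_image_of_mem f hx, ?_⟩
    rw [Set.disjoint_left]
    rintro _ ⟨z, hz, rfl⟩ h2
    refine h.le_bot ⟨hz, ?_⟩
    rw [← h1]; exact h2

lemma mem_closure_emb (hf : IsOpenEmbedding f) (S : Set T') (x : T) :
    f x ∈ closure S ↔ x ∈ closure (f ⁻¹' S) := by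
  rw [← hf.isOpenMap.preimage_closure_eq_closure_preimage hf.continuous S]
  rfl

lemma preimage_qq (hf : IsOpenEmbedding f) (n : ℕ) : f ⁻¹' (qq T' n) = qq T n := by
  ext x
  show (f x ∈ closure (cr T') ∧ f x ∈ closure (sc T' (n + 1) \ sc T' n) ∧
    ∃ V : Set T', IsOpen V ∧ f x ∈ V ∧ V ⊆ insert (f x) (cr T' ∪ sc T' (n + 1))) ↔ _
  rw [mem_closure_emb hf, mem_closure_emb hf, preimage_sdiff, preimage_cr hf, preimage_sc hf,
    preimage_sc hf]
  refine and_congr Iff.rfl (and_congr Iff.rfl ?_)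
  constructor
  · rintro ⟨V, hV, hx, h⟩
    refine ⟨f ⁻¹' V, hV.preimage hf.continuous, hx, fun z hz => ?_⟩
    rcases h hz with h1 | h1 | h1
    · exact Or.inl (hf.injective h1)
    · right; left
      rw [← preimage_cr hf]; exact h1
    · right; right
      rw [← preimage_sc hf]; exact h1
  · rintro ⟨V, hV, hx, h⟩
    refine ⟨f '' V, hf.isOpenMap V hV, mem_image_of_mem f hx, ?_⟩
    rintro _ ⟨z, hz, rfl⟩
    rcases h hz with h1 | h1 | h1
    · exact Or.inl (by rw [h1])
    · right; left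
      rw [← preimage_cr hf] at h1; exact h1
    · right; right
      rw [← preimage_sc hf] at h1; exact h1

lemma good_emb (hf : IsOpenEmbedding f) {A : Set ℕ} {y : T} (h : good T A y) :
    good T' A (f y) := by
  have e0 : ∀ z : T, f ⁻¹' {f z} = {z} := fun z => by
    ext w; simp [hf.injective.eq_iff]
  obtain ⟨h1, V, hV, hy, h2⟩ := h
  refine ⟨fun n => ?_, f '' V, hf.isOpenMap V hV, mem_image_of_mem f hy, ?_⟩
  · rw [mem_closure_emb hf, preimage_sdiff, preimage_qq hf, e0]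
    exact h1 n
  · rintro _ ⟨z, hz, rfl⟩ hzy
    rw [mem_closure_emb hf, preimage_sdiff, preimage_iUnion, e0]
    have e1 : (⋃ n, f ⁻¹' (qq T' n)) = ⋃ n, qq T n := iUnion_congr fun n => preimage_qq hf n
    rw [e1]
    exact h2 z hz fun h3 => hzy (by rw [h3])

end emb

section sigma

variable {Z : ℕ → Type u} [∀ n, TopologicalSpace (Z n)]

/-- inclusion of a summand in the one-point compactification of the sum -/
def inc (n : ℕ) (z : Z n) : OnePoint (Σ n, Z n) := ((⟨n, z⟩ : Σ n, Z n) : OnePoint (Σ n, Z n))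

lemma inc_open (n : ℕ) : IsOpenEmbedding (inc (Z := Z) n) :=
  OnePoint.isOpenEmbedding_coe.comp (Topology.IsOpenEmbedding.sigmaMk (σ := Z) (i := n))

lemma eq_inc {s : OnePoint (Σ n, Z n)} (hs : s ≠ OnePoint.infty) : ∃ n z, s = inc (Z := Z) n z := by
  induction s using OnePoint.rec with
  | infty => exact (hs rfl).elim
  | coe s => exact ⟨s.1, s.2, rfl⟩

lemma inc_ne (n : ℕ) (z : Z n) : inc (Z := Z) n z ≠ OnePoint.infty :=
  OnePoint.coe_ne_infty _

lemma tail {V : Set (OnePoint (Σ n, Z n))} (hV : IsOpen V) (h : OnePoint.infty ∈ V) :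
    ∃ N, ∀ n, N ≤ n → ∀ z, inc (Z := Z) n z ∈ V := by
  have h1 := (OnePoint.isOpen_iff_of_mem h).1 hV
  obtain ⟨t, ht⟩ := h1.2.elim_finite_subcover (fun n : ℕ => range (Sigma.mk n : Z n → Σ n, Z n))
    (fun n => isOpen_range_sigmaMk) (fun s _ => mem_iUnion.2 ⟨s.1, s.2, rfl⟩)
  refine ⟨t.sup id + 1, fun n hn z => ?_⟩
  by_contra hcon
  have h2 : (⟨n, z⟩ : Σ n, Z n) ∈ ((↑) ⁻¹' V : Set (Σ n, Z n))ᶜ := hcon
  obtain ⟨m, hm, w, hw⟩ := mem_iUnion₂.1 (ht h2)
  have h3 : m = n := congrArg Sigma.fst hw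
  have h4 : m ≤ t.sup id := Finset.le_sup (f := id) hm
  omega

end sigma

section build

variable {C : Type u} [TopologicalSpace C] [CompactSpace C] [T2Space C]

lemma crowded_cr {Z : Type u} [TopologicalSpace Z] (h : Crowded Z) (x : Z) : x ∈ cr Z := by
  refine ⟨univ, isOpen_univ, mem_univ x, ?_⟩
  rw [Set.disjoint_left]
  rintro z - ⟨V, hV, hz, hs⟩
  obtain ⟨y, hy, hyz⟩ := h z V hV hz
  rcases hs hy with h1 | h1
  · exact hyz h1
  · exact h1

/-- compact spaces with one point of rank `n` and all other points of smaller rank -/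
lemma exists_rank (hH : OpenSeq C) (hC : Crowded C) (n : ℕ) :
    Ev C (fun Z _ => ∃ p : Z, (∀ z, z ≠ p → z ∈ sc Z n) ∧ p ∉ sc Z n) := by
  induction n with
  | zero => exact Ev.punit ⟨PUnit.unit, fun z hz => (hz rfl).elim, fun h => h⟩
  | succ n ih =>
    refine Ev.wedge hH hC (fun _ => ih) ?_
    intro Z _ hZ
    choose p h2 h3 using hZ
    have hall : ∀ k (z : Z k), z ∈ sc (Z k) (n + 1) := by
      intro k z
      by_cases hz : z = p k
      · refine ⟨univ, isOpen_univ, mem_univ _, fun w _ => ?_⟩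
        by_cases hw : w = z
        · exact Or.inl hw
        · exact Or.inr (h2 k w (fun h => hw (h.trans hz.symm)))
      · exact sc_subset_succ n (h2 k z hz)
    refine ⟨OnePoint.infty, ?_, ?_⟩
    · intro s hs
      obtain ⟨k, z, rfl⟩ := eq_inc hs
      have h4 : inc k z ∈ sc (OnePoint (Σ k, Z k)) (n + 1) ↔ z ∈ sc (Z k) (n + 1) := by
        rw [← preimage_sc (inc_open (Z := Z) k)]; rfl
      exact h4.2 (hall k z)
    · rintro ⟨V, hV, hx, h⟩
      obtain ⟨N, hN⟩ := tail hV hx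
      have h4 := h (hN N le_rfl (p N))
      rcases h4 with h5 | h5
      · exact inc_ne _ _ h5
      · apply h3 N
        rw [← preimage_sc (inc_open (Z := Z) N)]
        exact h5

/-- sums of a crowded space and a space of a given rank -/
lemma exists_S (hH : OpenSeq C) (hC : Crowded C) (n : ℕ) :
    Ev C (fun Z _ => (∃ c : Z, c ∈ cr Z) ∧ (∃ p : Z, p ∈ sc Z (n + 1) ∧ p ∉ sc Z n) ∧
      ∀ z : Z, z ∈ cr Z ∪ sc Z (n + 1)) := by
  refine Ev.sum hC (Ev.crowded hC) (exists_rank hH hC n) ?_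
  rintro Z Z' _ _ ⟨⟨c⟩, hc⟩ ⟨p, h2, h3⟩
  have hall : ∀ z : Z', z ∈ sc Z' (n + 1) := by
    intro z
    by_cases hz : z = p
    · refine ⟨univ, isOpen_univ, mem_univ _, fun w _ => ?_⟩
      by_cases hw : w = z
      · exact Or.inl hw
      · exact Or.inr (h2 w (fun h => hw (h.trans hz.symm)))
    · exact sc_subset_succ n (h2 z hz)
  have hl : IsOpenEmbedding (Sum.inl : Z → Z ⊕ Z') := Topology.IsOpenEmbedding.inl
  have hr : IsOpenEmbedding (Sum.inr : Z' → Z ⊕ Z') := Topology.IsOpenEmbedding.inr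
  have hlc : ∀ z : Z, (Sum.inl z : Z ⊕ Z') ∈ cr (Z ⊕ Z') := by
    intro z
    have h4 := crowded_cr hc z
    rw [← preimage_cr hl] at h4
    exact h4
  have hrs : ∀ (z : Z') m, (Sum.inr z : Z ⊕ Z') ∈ sc (Z ⊕ Z') m ↔ z ∈ sc Z' m := by
    intro z m
    rw [← preimage_sc hr m]
    rfl
  refine ⟨⟨Sum.inl c, hlc c⟩, ⟨Sum.inr p, (hrs p _).2 (hall p), fun h => h3 ((hrs p _).1 h)⟩, ?_⟩
  rintro (z | z)
  · exact Or.inl (hlc z)
  · exact Or.inr ((hrs z _).2 (hall z))

/-- compact spaces with one special point of a given kind -/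
lemma exists_B (hH : OpenSeq C) (hC : Crowded C) (n : ℕ) :
    Ev C (fun Z _ => ∃ p : Z, (∀ z, z ≠ p → z ∈ cr Z ∪ sc Z (n + 1)) ∧ p ∈ qq Z n) := by
  refine Ev.wedge hH hC (fun _ => exists_S hH hC n) ?_
  intro Z _ hZ
  choose h1 h2 h3 using hZ
  choose c hc using h1
  choose p hp hp' using h2
  have hcr : ∀ k (z : Z k), inc k z ∈ cr (OnePoint (Σ k, Z k)) ↔ z ∈ cr (Z k) := by
    intro k z
    rw [← preimage_cr (inc_open (Z := Z) k)]
    rfl
  have hsc : ∀ k (z : Z k) m, inc k z ∈ sc (OnePoint (Σ k, Z k)) m ↔ z ∈ sc (Z k) m := by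
    intro k z m
    rw [← preimage_sc (inc_open (Z := Z) k) m]
    rfl
  have hmem : ∀ s : OnePoint (Σ k, Z k), s ≠ OnePoint.infty →
      s ∈ cr (OnePoint (Σ k, Z k)) ∪ sc (OnePoint (Σ k, Z k)) (n + 1) := by
    intro s hs
    obtain ⟨k, z, rfl⟩ := eq_inc hs
    rcases h3 k z with h | h
    · exact Or.inl ((hcr k z).2 h)
    · exact Or.inr ((hsc k z _).2 h)
  refine ⟨OnePoint.infty, hmem, ?_, ?_, ?_⟩
  · rw [mem_closure_iff]
    intro V hV hx
    obtain ⟨N, hN⟩ := tail hV hx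
    exact ⟨_, hN N le_rfl (c N), (hcr _ _).2 (hc N)⟩
  · rw [mem_closure_iff]
    intro V hV hx
    obtain ⟨N, hN⟩ := tail hV hx
    exact ⟨_, hN N le_rfl (p N), (hsc _ _ _).2 (hp N), fun h => hp' N ((hsc _ _ _).1 h)⟩
  · refine ⟨univ, isOpen_univ, mem_univ _, fun s _ => ?_⟩
    by_cases hs : s = OnePoint.infty
    · exact Or.inl hs
    · exact Or.inr (hmem s hs)

/-- compact spaces with a point coding `A` -/
lemma exists_good (hH : OpenSeq C) (hC : Crowded C) (A : Set ℕ) (hA : A.Nonempty) :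
    Ev C (fun Z _ => ∃ y : Z, good Z A y) := by
  classical
  obtain ⟨n0, hn0⟩ := hA
  let a : ℕ → ℕ := fun k => if (Nat.unpair k).1 ∈ A then (Nat.unpair k).1 else n0
  have ha : ∀ k, a k ∈ A := fun k => by
    by_cases h : (Nat.unpair k).1 ∈ A
    · simp only [a, h, if_true]
    · simp only [a, h, if_false]; exact hn0
  have ha2 : ∀ n ∈ A, ∀ N, ∃ k, N ≤ k ∧ a k = n := by
    intro n hn N
    refine ⟨Nat.pair n N, Nat.right_le_pair _ _, ?_⟩
    simp only [a, Nat.unpair_pair, hn, if_true]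
  refine Ev.wedge hH hC (fun k => exists_B hH hC (a k)) ?_
  intro B _ hB
  choose p hB2 hB3 using hB
  have hp : ∀ k, inc (Z := B) k (p k) ∈ qq (OnePoint (Σ k, B k)) (a k) := by
    intro k
    have h4 := hB3 k
    rw [← preimage_qq (inc_open (Z := B) k)] at h4
    exact h4
  -- special points of a summand
  have hsp : ∀ k (b : B k) m, b ∈ qq (B k) m → b = p k ∧ m = a k := by
    intro k b m hb
    have h1 : b = p k := by
      by_contra hne
      rcases hB2 k b hne with h1 | h1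
      · exact qq_notMem_cr hb h1
      · exact qq_notMem_sc hb _ h1
    refine ⟨h1, ?_⟩
    rw [h1] at hb
    exact qq_excl hb (hB3 k)
  refine ⟨OnePoint.infty, fun n => ⟨?_, ?_⟩, univ, isOpen_univ, mem_univ _, ?_⟩
  · intro h
    obtain ⟨s, -, hs1, hs2⟩ := mem_closure_iff.1 h univ isOpen_univ (mem_univ _)
    obtain ⟨k, b, rfl⟩ := eq_inc hs2
    have h4 : b ∈ qq (B k) n := by
      rw [← preimage_qq (inc_open (Z := B) k)]
      exact hs1
    rw [(hsp k b n h4).2]
    exact ha k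
  · intro hn
    rw [mem_closure_iff]
    intro V hV hx
    obtain ⟨N, hN⟩ := tail hV hx
    obtain ⟨k, hk, hak⟩ := ha2 n hn N
    exact ⟨_, hN k hk (p k), qq_congr hak (hp k), inc_ne _ _⟩
  · intro s _ hs
    obtain ⟨k, b, rfl⟩ := eq_inc hs
    rw [mem_closure_emb (inc_open (Z := B) k), preimage_sdiff, preimage_iUnion]
    have e0 : inc (Z := B) k ⁻¹' {inc (Z := B) k b} = {b} := by
      ext w
      simp [(inc_open (Z := B) k).injective.eq_iff]
    have e1 : (⋃ n, inc (Z := B) k ⁻¹' (qq (OnePoint (Σ k, B k)) n)) ⊆ {p k} := by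
      intro w hw
      obtain ⟨m, hm⟩ := mem_iUnion.1 hw
      rw [preimage_qq (inc_open (Z := B) k)] at hm
      exact (hsp k w m hm).1
    rw [e0]
    by_cases hb : b = p k
    · intro hcl
      obtain ⟨w, -, hw1, hw2⟩ := mem_closure_iff.1 hcl univ isOpen_univ (mem_univ _)
      exact hw2 ((e1 hw1).trans hb.symm)
    · intro hcl
      obtain ⟨w, hw, hw1, -⟩ := mem_closure_iff.1 hcl _
        (isOpen_cr.union (isOpen_sc (a k + 1))) (hB2 k b hb)
      have h5 : w = p k := e1 hw1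
      rw [h5] at hw
      rcases hw with h6 | h6
      · exact qq_notMem_cr (hB3 k) h6
      · exact qq_notMem_sc (hB3 k) _ h6

end build

end Pool.Agent.Lib.MP_77266e_gt
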