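import Pool.Agent.Lib.MP_77266e_gt.Inv

/-!
# Discrete sets in c.o. spaces

`disc_le_iso`: relatively discrete subsets of a c.o. space are not larger than the set of isolated
points. `main_disc`: a c.o. space which contains a crowded compact space with `OpenSeq` contains a
relatively discrete set of cardinality continuum in the closure of the crowded part.
-/

namespace Pool.Agent.Lib.MP_77266e_gt

open Set Topology Filter Cardinal

universe u

section

variable {X : Type u} [TopologicalSpace X] [CompactSpace X] [T2Space X]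

omit [CompactSpace X] [T2Space X] in
lemma copies (hco : ∀ F : Set X, IsClosed F → ∃ U : Set X, IsClopen U ∧ Nonempty (F ≃ₜ U))
    (F : Set X) (hF : IsClosed F) : ∃ g : F → X, IsOpenEmbedding g := by
  obtain ⟨U, hU, ⟨e⟩⟩ := hco F hF
  exact ⟨fun x => (e x : X), hU.isOpen.isOpenEmbedding_subtypeVal.comp e.isOpenEmbedding⟩

omit [CompactSpace X] in
/-- relatively discrete sets -/
theorem disc_le_iso
    (hco : ∀ F : Set X, IsClosed F → ∃ U : Set X, IsClopen U ∧ Nonempty (F ≃ₜ U))
    (D : Set X) (hD : ∀ x ∈ D, ∃ V : Set X, IsOpen V ∧ V ∩ D = {x}) :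
    #D ≤ #{x : X | IsOpen ({x} : Set X)} := by
  obtain ⟨g, hg⟩ := copies hco (closure D) isClosed_closure
  have hiso : ∀ x : D, IsOpen ({g ⟨x.1, subset_closure x.2⟩} : Set X) := by
    rintro ⟨x, hx⟩
    obtain ⟨V, hV, hVD⟩ := hD x hx
    have hxV : x ∈ V := by
      have h1 : x ∈ V ∩ D := by rw [hVD]; exact mem_singleton x
      exact h1.1
    have h8 : ({⟨x, subset_closure hx⟩} : Set (closure D)) = Subtype.val ⁻¹' V := by
      ext z
      constructor
      · rintro rfl; exact hxV
      · intro hz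
        by_contra hne
        obtain ⟨d, hd, hd'⟩ := mem_closure_iff.1 z.2 (V ∩ {x}ᶜ)
          (hV.inter isOpen_compl_singleton) ⟨hz, fun h => hne (Subtype.ext h)⟩
        have h2 : d ∈ V ∩ D := ⟨hd.1, hd'⟩
        rw [hVD] at h2
        exact hd.2 h2
    have h9 : IsOpen ({⟨x, subset_closure hx⟩} : Set (closure D)) := by
      rw [h8]; exact hV.preimage continuous_subtype_val
    have h10 := hg.isOpenMap _ h9
    rwa [image_singleton] at h10
  refine Cardinal.mk_le_of_injective (f := fun x : D =>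
    (⟨g ⟨x.1, subset_closure x.2⟩, hiso x⟩ : {x : X | IsOpen ({x} : Set X)})) ?_
  intro x y hxy
  have h1 := hg.injective (congrArg Subtype.val hxy)
  have h2 : (x : X) = y := congrArg (Subtype.val : closure D → X) h1
  exact Subtype.ext h2

/-- The main construction. -/
theorem main_disc
    (hco : ∀ F : Set X, IsClosed F → ∃ U : Set X, IsClopen U ∧ Nonempty (F ≃ₜ U))
    {C : Type u} [TopologicalSpace C] [CompactSpace C] [T2Space C] [Nonempty C]
    (hC : Crowded C) (hH : OpenSeq C) (j : C → X) (hj1 : Continuous j)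
    (hj2 : Function.Injective j) :
    ∃ y : Set ℕ → X, Function.Injective y ∧ (∀ A, y A ∈ closure (cr X)) ∧
      ∀ A, ∃ V : Set X, IsOpen V ∧ y A ∈ V ∧ ∀ A', y A' ∈ V → A' = A := by
  classical
  have hy : ∀ A : Set ℕ, A.Nonempty → ∃ y : X, good X A y := by
    intro A hA
    obtain ⟨Z, tZ, cZ, f, hf, -, y, h2⟩ := exists_good hH hC A hA univ isOpen_univ univ_nonempty
    have h3 : IsClosedEmbedding (j ∘ f) :=
      (hj1.comp hf.continuous).isClosedEmbedding (hj2.comp hf.injective)
    obtain ⟨g, hg⟩ := copies hco (range (j ∘ f)) h3.isClosed_range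
    have h4 : IsOpenEmbedding (g ∘ h3.isEmbedding.toHomeomorph) :=
      hg.comp h3.isEmbedding.toHomeomorph.isOpenEmbedding
    exact ⟨_, good_emb h4 h2⟩
  choose y0 hy0 using fun A : {A : Set ℕ // A.Nonempty} => hy A.1 A.2
  have hinj0 : Function.Injective y0 := by
    intro A A' h
    apply Subtype.ext
    ext n
    rw [← (hy0 A).1 n, ← (hy0 A').1 n, h]
  let c : Set ℕ → {A : Set ℕ // A.Nonempty} := fun A =>
    ⟨insert 0 (Nat.succ '' A), insert_nonempty _ _⟩
  have hc : Function.Injective c := by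
    intro A A' h
    have h3 : insert 0 (Nat.succ '' A) = insert 0 (Nat.succ '' A') := congrArg Subtype.val h
    ext n
    have h4 : n + 1 ∈ insert 0 (Nat.succ '' A) ↔ n + 1 ∈ insert 0 (Nat.succ '' A') := by rw [h3]
    simpa using h4
  refine ⟨fun A => y0 (c A), hinj0.comp hc, fun A => ?_, fun A => ?_⟩
  · have h1 : (0 : ℕ) ∈ (c A).1 := mem_insert _ _
    have h2 := ((hy0 (c A)).1 0).2 h1
    have h3 : qq X 0 \ {y0 (c A)} ⊆ closure (cr X) := fun z hz => hz.1.1
    exact closure_minimal h3 isClosed_closure h2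
  · obtain ⟨V, hV, hyV, h⟩ := (hy0 (c A)).2
    refine ⟨V, hV, hyV, fun A' hA' => ?_⟩
    by_contra hne
    have h1 : y0 (c A') ≠ y0 (c A) := fun h' => hne (hc (hinj0 h'))
    apply h _ hA' h1
    have h2 : (0 : ℕ) ∈ (c A').1 := mem_insert _ _
    exact closure_mono (sdiff_subset_sdiff_left (subset_iUnion (fun n => qq X n) 0))
      (((hy0 (c A')).1 0).2 h2)

/-- The union of all crowded subsets. -/
def kernel (X : Type u) [TopologicalSpace X] : Set X :=
  ⋃₀ {S : Set X | ∀ x ∈ S, x ∈ closure (S \ {x})}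

omit [CompactSpace X] [T2Space X] in
lemma kernel_crowded : ∀ x ∈ kernel X, x ∈ closure (kernel X \ {x}) := by
  rintro x ⟨S, hS, hx⟩
  exact closure_mono (sdiff_subset_sdiff_left (subset_sUnion_of_mem hS)) (hS x hx)

omit [CompactSpace X] [T2Space X] in
lemma closure_crowded {S : Set X} (hS : ∀ x ∈ S, x ∈ closure (S \ {x})) :
    ∀ x ∈ closure S, x ∈ closure (closure S \ {x}) := by
  intro x hx
  by_cases h : x ∈ S
  · exact closure_mono (sdiff_subset_sdiff_left subset_closure) (hS x h)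
  · have h1 : S ⊆ closure S \ {x} := fun z hz => ⟨subset_closure hz, fun h' => h (h' ▸ hz)⟩
    exact closure_mono h1 hx

omit [CompactSpace X] [T2Space X] in
lemma isClosed_kernel : IsClosed (kernel X) := by
  have h : closure (kernel X) ⊆ kernel X :=
    fun x hx => ⟨closure (kernel X), closure_crowded kernel_crowded, hx⟩
  exact isClosed_of_closure_subset h

omit [CompactSpace X] [T2Space X] in
lemma cr_crowded : ∀ x ∈ cr X, x ∈ closure (cr X \ {x}) := by
  intro x hx
  rw [mem_closure_iff]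
  intro V hV hxV
  by_contra hcon
  rw [Set.not_nonempty_iff_eq_empty] at hcon
  obtain ⟨W, hW, hxW, hd⟩ := hx
  apply hd.le_bot ⟨hxW, V ∩ cr X, hV.inter isOpen_cr, ⟨hxV, W, hW, hxW, hd⟩, fun z hz => ?_⟩
  by_contra hne
  have h1 : z ∈ V ∩ (cr X \ {x}) := ⟨hz.1, hz.2, fun h => hne (Or.inl h)⟩
  rw [hcon] at h1
  exact h1

omit [CompactSpace X] [T2Space X] in
lemma closure_cr_subset : closure (cr X) ⊆ kernel X :=
  closure_minimal (fun x hx => ⟨cr X, cr_crowded, hx⟩) isClosed_kernel

/-- crowded subsets as spaces -/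
lemma crowded_coe {X : Type u} [TopologicalSpace X] {S : Set X}
    (hS : ∀ x ∈ S, x ∈ closure (S \ {x})) : Crowded S := by
  rintro ⟨x, hx⟩ O hO hxO
  obtain ⟨V, hV, rfl⟩ := isOpen_induced_iff.1 hO
  obtain ⟨z, hz, hz'⟩ := mem_closure_iff.1 (hS x hx) V hV hxO
  exact ⟨⟨z, hz'.1⟩, hz, fun h => hz'.2 (congrArg Subtype.val h)⟩

/-- The main theorem in terms of cardinalities. -/
theorem main_card
    (hco : ∀ F : Set X, IsClosed F → ∃ U : Set X, IsClopen U ∧ Nonempty (F ≃ₜ U))
    {C : Type u} [TopologicalSpace C] [CompactSpace C] [T2Space C] [Nonempty C]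
    (hC : Crowded C) (hH : OpenSeq C) (j : C → X) (hj1 : Continuous j)
    (hj2 : Function.Injective j) :
    ∃ D ⊆ kernel X, #D = 𝔠 ∧ ∀ x ∈ D, ∃ V : Set X, IsOpen V ∧ V ∩ D = {x} := by
  obtain ⟨y, h1, h2, h3⟩ := main_disc hco hC hH j hj1 hj2
  refine ⟨range y, ?_, ?_, ?_⟩
  · rintro _ ⟨A, rfl⟩
    exact closure_cr_subset (h2 A)
  · have e1 : range y = range (fun A : ULift.{u} (Set ℕ) => y A.down) := by
      ext x
      constructor
      · rintro ⟨A, rfl⟩; exact ⟨⟨A⟩, rfl⟩
      · rintro ⟨A, rfl⟩; exact ⟨A.down, rfl⟩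
    rw [e1, Cardinal.mk_range_eq _ (fun A A' h => ULift.down_injective (h1 h)),
      Cardinal.mk_uLift, Cardinal.mk_set, Cardinal.mk_nat, Cardinal.two_power_aleph0,
      Cardinal.lift_continuum]
  · rintro _ ⟨A, rfl⟩
    obtain ⟨V, hV, hyV, h⟩ := h3 A
    refine ⟨V, hV, ?_⟩
    ext z
    constructor
    · rintro ⟨hz, A', rfl⟩
      rw [h A' hz]; exact mem_singleton _
    · rintro rfl
      exact ⟨hyV, A, rfl⟩

end

end Pool.Agent.Lib.MP_77266e_gt
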