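import Mathlib

/-!
# Convergent sums of compact spaces

`Ev C Q`: every nonempty open subset of `C` contains a compact space with the property `Q`.
`Ev.wedge`: in a crowded space with `OpenSeq`, this is inherited by one-point compactifications of
countable sums.
-/

namespace Pool.Agent.Lib.MP_77266e_gt

open Set Topology Filter

universe u v w

/-- Every nonempty open subset of `C` contains a compact space with the property `Q`. -/
def Ev (C : Type u) [TopologicalSpace C] (Q : (Z : Type u) → [TopologicalSpace Z] → Prop) : Prop :=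
  ∀ O : Set C, IsOpen O → O.Nonempty → ∃ (Z : Type u) (_ : TopologicalSpace Z)
    (_ : CompactSpace Z) (f : Z → C), IsEmbedding f ∧ range f ⊆ O ∧ Q Z

/-- Every nonempty open set contains a point `y` and a sequence of nonempty open sets which
converges to `y` (the sets of the sequence are not required to be subsets). -/
def OpenSeq (C : Type u) [TopologicalSpace C] : Prop :=
  ∀ O : Set C, IsOpen O → O.Nonempty → ∃ y ∈ O, ∃ W : ℕ → Set C, (∀ n, IsOpen (W n)) ∧
    (∀ n, (W n).Nonempty) ∧ ∀ V : Set C, IsOpen V → y ∈ V → ∃ N, ∀ n, N ≤ n → W n ⊆ V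

/-- no isolated points -/
def Crowded (C : Type u) [TopologicalSpace C] : Prop :=
  ∀ (x : C) (O : Set C), IsOpen O → x ∈ O → ∃ y ∈ O, y ≠ x

section

variable {C : Type u} [TopologicalSpace C] [T2Space C]

lemma emb_of_continuous_injective {Z : Type v} [TopologicalSpace Z] [CompactSpace Z]
    {f : Z → C} (h1 : Continuous f) (h2 : Function.Injective f) : IsEmbedding f :=
  (h1.isClosedEmbedding h2).isEmbedding

/-- a disjoint sequence of open sets which converges to a point -/
lemma exists_seq (hH : OpenSeq C) (hC : Crowded C) (O : Set C) (hO : IsOpen O)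
    (hne : O.Nonempty) :
    ∃ y ∈ O, ∃ W : ℕ → Set C, (∀ n, IsOpen (W n)) ∧ (∀ n, (W n).Nonempty) ∧ (∀ n, W n ⊆ O) ∧
      (∀ n, y ∉ W n) ∧ (Pairwise fun m n => Disjoint (W m) (W n)) ∧
      ∀ V : Set C, IsOpen V → y ∈ V → ∃ N, ∀ n, N ≤ n → W n ⊆ V := by
  obtain ⟨y, hy, B, hB1, hB2, hB3⟩ := hH O hO hne
  have step : ∀ (V : Set C) (k : ℕ), IsOpen V → y ∈ V → ∃ V' W' : Set C, IsOpen V' ∧ y ∈ V' ∧
      V' ⊆ V ∧ IsOpen W' ∧ W'.Nonempty ∧ W' ⊆ V ∧ Disjoint V' W' ∧ y ∉ W' ∧
      ∃ n, k ≤ n ∧ W' ⊆ B n := by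
    intro V k hV hyV
    obtain ⟨N, hN⟩ := hB3 V hV hyV
    obtain ⟨w, hw⟩ := hB2 (max N k)
    have hw' : ∃ z ∈ B (max N k), z ≠ y := by
      by_cases h : w = y
      · obtain ⟨z, hz, hzw⟩ := hC w _ (hB1 _) hw
        exact ⟨z, hz, fun h' => hzw (h'.trans h.symm)⟩
      · exact ⟨w, hw, h⟩
    obtain ⟨z, hz, hzy⟩ := hw'
    obtain ⟨P, Q, hP, hQ, hyP, hzQ, hPQ⟩ := t2_separation hzy.symm
    exact ⟨V ∩ P, B (max N k) ∩ Q, hV.inter hP, ⟨hyV, hyP⟩, inter_subset_left,
      (hB1 _).inter hQ, ⟨z, hz, hzQ⟩, inter_subset_left.trans (hN _ (le_max_left _ _)),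
      hPQ.mono inter_subset_right inter_subset_right, fun h => hPQ.le_bot ⟨hyP, h.2⟩,
      max N k, le_max_right _ _, inter_subset_left⟩
  choose! S1 S2 h1 h2 h3 h4 h5 h6 h7 h8 h9 using step
  -- the sequence of neighbourhoods
  let V : ℕ → Set C := fun n => Nat.rec O (fun k Vk => S1 Vk k) n
  have V0 : V 0 = O := rfl
  have VS : ∀ k, V (k + 1) = S1 (V k) k := fun k => rfl
  have hV : ∀ n, IsOpen (V n) ∧ y ∈ V n := by
    intro n
    induction n with
    | zero => exact ⟨hO, hy⟩
    | succ k ih =>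
      rw [VS]
      exact ⟨h1 _ k ih.1 ih.2, h2 _ k ih.1 ih.2⟩
  have hsub : ∀ k, V (k + 1) ⊆ V k := fun k => by
    rw [VS]; exact h3 _ k (hV k).1 (hV k).2
  have hanti : Antitone V := antitone_nat_of_succ_le hsub
  refine ⟨y, hy, fun n => S2 (V n) n, fun n => h4 _ n (hV n).1 (hV n).2,
    fun n => h5 _ n (hV n).1 (hV n).2,
    fun n => (h6 _ n (hV n).1 (hV n).2).trans (hanti (Nat.zero_le n)),
    fun n => h8 _ n (hV n).1 (hV n).2, ?_, ?_⟩
  · have key : ∀ m n, m < n → Disjoint (S2 (V m) m) (S2 (V n) n) := by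
      intro m n hmn
      have e1 : S2 (V n) n ⊆ S1 (V m) m := by
        refine (h6 _ n (hV n).1 (hV n).2).trans ?_
        rw [← VS]
        exact hanti hmn
      exact ((h7 _ m (hV m).1 (hV m).2).symm).mono_right e1
    intro m n hmn
    rcases lt_or_gt_of_ne hmn with h | h
    · exact key _ _ h
    · exact (key _ _ h).symm
  · intro U hU hyU
    obtain ⟨N, hN⟩ := hB3 U hU hyU
    refine ⟨N, fun n hn => ?_⟩
    obtain ⟨k, hk, hk2⟩ := h9 _ n (hV n).1 (hV n).2
    exact hk2.trans (hN k (hn.trans hk))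

/-- the sum of two spaces -/
lemma Ev.sum (hC : Crowded C) {Q Q' Q'' : (Z : Type u) → [TopologicalSpace Z] → Prop}
    (h : Ev C Q) (h' : Ev C Q')
    (H : ∀ (Z Z' : Type u) [TopologicalSpace Z] [TopologicalSpace Z'], Q Z → Q' Z' → Q'' (Z ⊕ Z')) :
    Ev C Q'' := by
  rintro O hO ⟨x, hx⟩
  obtain ⟨z, hz, hzx⟩ := hC x O hO hx
  obtain ⟨P, R, hP, hR, hxP, hzR, hPR⟩ := t2_separation hzx.symm
  obtain ⟨Z, tZ, cZ, f, hf, hfr, hZ⟩ := h (O ∩ P) (hO.inter hP) ⟨x, hx, hxP⟩
  obtain ⟨Z', tZ', cZ', g, hg, hgr, hZ'⟩ := h' (O ∩ R) (hO.inter hR) ⟨z, hz, hzR⟩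
  refine ⟨Z ⊕ Z', inferInstance, inferInstance, Sum.elim f g, emb_of_continuous_injective
    (continuous_sum_dom.2 ⟨hf.continuous, hg.continuous⟩) ?_, ?_, H Z Z' hZ hZ'⟩
  · refine hf.injective.sumElim hg.injective fun a b hab => ?_
    have e1 := (hfr (mem_range_self a)).2
    have e2 := (hgr (mem_range_self b)).2
    rw [hab] at e1
    exact hPR.le_bot ⟨e1, e2⟩
  · rintro _ ⟨a | b, rfl⟩
    · exact (hfr (mem_range_self a)).1
    · exact (hgr (mem_range_self b)).1

/-- the one-point compactification of a countable sum -/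
lemma Ev.wedge (hH : OpenSeq C) (hC : Crowded C)
    {Q : ℕ → (Z : Type u) → [TopologicalSpace Z] → Prop}
    {Q' : (Z : Type u) → [TopologicalSpace Z] → Prop} (h : ∀ n, Ev C (Q n))
    (H : ∀ (Z : ℕ → Type u) [∀ n, TopologicalSpace (Z n)], (∀ n, Q n (Z n)) →
      Q' (OnePoint (Σ n, Z n))) : Ev C Q' := by
  intro O hO hne
  obtain ⟨y, hy, W, hW1, hW2, hW3, hW4, hW5, hW6⟩ := exists_seq hH hC O hO hne
  choose Z tZ cZ f hf hfr hQ using fun n => h n (W n) (hW1 n) (hW2 n)
  let g : OnePoint (Σ n, Z n) → C := fun s => Option.elim s y (fun s => f s.1 s.2)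
  have g1 : ∀ s : (Σ n, Z n), g (s : OnePoint (Σ n, Z n)) = f s.1 s.2 := fun s => rfl
  have g0 : g OnePoint.infty = y := rfl
  refine ⟨OnePoint (Σ n, Z n), inferInstance, inferInstance, g,
    emb_of_continuous_injective ?_ ?_, ?_, H Z hQ⟩
  · rw [OnePoint.continuous_iff]
    constructor
    · rw [g0]
      intro V hV
      obtain ⟨V', hV'V, hV'o, hyV'⟩ := mem_nhds_iff.1 hV
      obtain ⟨N, hN⟩ := hW6 V' hV'o hyV'
      rw [Filter.mem_map, Filter.hasBasis_coclosedCompact.mem_iff]
      refine ⟨⋃ n ∈ Finset.range N, Sigma.mk n '' univ, ⟨?_, ?_⟩, ?_⟩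
      · refine isClosed_biUnion_finset fun n _ => ?_
        exact isClosedMap_sigmaMk _ isClosed_univ
      · refine (Finset.range N).isCompact_biUnion fun n _ => ?_
        exact isCompact_univ.image continuous_sigmaMk
      · rintro ⟨n, z⟩ hs
        by_cases hn : n < N
        · exfalso
          apply hs
          simp only [mem_iUnion]
          exact ⟨n, Finset.mem_range.2 hn, z, mem_univ _, rfl⟩
        · apply hV'V
          apply hN n (not_lt.1 hn)
          exact hfr n (mem_range_self z)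
    · exact continuous_sigma fun n => (hf n).continuous
  · intro s t hst
    induction s using OnePoint.rec with
    | infty =>
      induction t using OnePoint.rec with
      | infty => rfl
      | coe t =>
        exfalso
        rw [g0, g1] at hst
        exact hW4 _ (hst ▸ hfr t.1 (mem_range_self t.2))
    | coe s =>
      induction t using OnePoint.rec with
      | infty =>
        exfalso
        rw [g0, g1] at hst
        exact hW4 _ (hst ▸ hfr s.1 (mem_range_self s.2))
      | coe t =>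
        rw [g1, g1] at hst
        obtain ⟨n, a⟩ := s
        obtain ⟨m, b⟩ := t
        by_cases hnm : n = m
        · subst hnm
          have e4 : a = b := (hf n).injective hst
          rw [e4]
        · exfalso
          have e1 := hfr n (mem_range_self a)
          have e2 := hfr m (mem_range_self b)
          have e3 : f n a = f m b := hst
          rw [e3] at e1
          exact (hW5 hnm).le_bot ⟨e1, e2⟩
  · rintro _ ⟨s, rfl⟩
    induction s using OnePoint.rec with
    | infty => exact hy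
    | coe s => exact hW3 _ (hfr s.1 (mem_range_self s.2))

end

/-- points of countable character -/
lemma openSeq_of_countable {C : Type u} [TopologicalSpace C]
    (h : ∀ O : Set C, IsOpen O → O.Nonempty → ∃ y ∈ O, (𝓝 y).IsCountablyGenerated) :
    OpenSeq C := by
  intro O hO hne
  obtain ⟨y, hy, hc⟩ := h O hO hne
  obtain ⟨B, hB⟩ := (𝓝 y).exists_antitone_basis
  refine ⟨y, hy, fun n => interior (B n), fun n => isOpen_interior,
    fun n => ⟨y, mem_interior_iff_mem_nhds.2 (hB.mem n)⟩, fun V hV hyV => ?_⟩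
  obtain ⟨N, -, hN⟩ := hB.toHasBasis.mem_iff.1 (hV.mem_nhds hyV)
  exact ⟨N, fun n hn => interior_subset.trans ((hB.antitone hn).trans hN)⟩

/-- points -/
lemma Ev.punit {C : Type u} [TopologicalSpace C] {Q : (Z : Type u) → [TopologicalSpace Z] → Prop}
    (h : Q PUnit) : Ev C Q := by
  rintro O - ⟨x, hx⟩
  refine ⟨PUnit, inferInstance, inferInstance, fun _ => x, ?_, ?_, h⟩
  · exact ⟨⟨by
      ext s
      simp only [isOpen_induced_iff]
      constructor
      · intro _
        rcases Set.eq_empty_or_nonempty s with h | ⟨a, ha⟩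
        · exact ⟨∅, isOpen_empty, by rw [h]; rfl⟩
        · exact ⟨univ, isOpen_univ, by
            rw [preimage_univ]; ext b; simp only [mem_univ, true_iff]; exact ha⟩
      · intro _; exact isOpen_discrete _⟩, fun a b _ => rfl⟩
  · rintro _ ⟨_, rfl⟩; exact hx

/-- crowded spaces -/
lemma Ev.crowded {C : Type u} [TopologicalSpace C] [CompactSpace C] [T2Space C] (hC : Crowded C) :
    Ev C (fun Z _ => Nonempty Z ∧ Crowded Z) := by
  rintro O hO ⟨x, hx⟩
  obtain ⟨K, hK, hKc, hKO⟩ := exists_mem_nhds_isClosed_subset (hO.mem_nhds hx)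
  obtain ⟨O', hO'K, hO'o, hxO'⟩ := mem_nhds_iff.1 hK
  have h1 : closure O' ⊆ O := (closure_minimal hO'K hKc).trans hKO
  have hc : CompactSpace (closure O') := isCompact_iff_compactSpace.1 isClosed_closure.isCompact
  refine ⟨closure O', inferInstance, hc, Subtype.val, IsEmbedding.subtypeVal, ?_,
    ⟨⟨x, subset_closure hxO'⟩⟩, ?_⟩
  · rw [Subtype.range_coe]; exact h1
  · rintro ⟨z, hz⟩ V hV hzV
    obtain ⟨V', hV', rfl⟩ := isOpen_induced_iff.1 hV
    obtain ⟨w, hw1, hw2⟩ := mem_closure_iff.1 hz V' hV' hzV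
    by_cases hwz : w = z
    · obtain ⟨w', hw', hne⟩ := hC w (V' ∩ O') (hV'.inter hO'o) ⟨hw1, hw2⟩
      refine ⟨⟨w', subset_closure hw'.2⟩, hw'.1, fun h => hne ?_⟩
      rw [hwz]; exact congrArg Subtype.val h
    · exact ⟨⟨w, subset_closure hw2⟩, hw1, fun h => hwz (congrArg Subtype.val h)⟩

end Pool.Agent.Lib.MP_77266e_gt
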