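import Pool.Agent.Lib.MP_77266e_gt.Cons

/-!
# Spaces of small weight
-/

namespace Pool.Agent.Lib.MP_77266e_gt

open Set Topology Filter Cardinal

universe u

section cantor

/-- initial segments (in reverse order) -/
def rs (z : ℕ → Bool) : ℕ → List Bool
  | 0 => []
  | n + 1 => z n :: rs z n

lemma rs_congr {z w : ℕ → Bool} {n : ℕ} (h : ∀ i, i < n → z i = w i) : rs z n = rs w n := by
  induction n with
  | zero => rfl
  | succ n ih =>
    show z n :: rs z n = w n :: rs w n
    rw [h n (Nat.lt_succ_self n), ih fun i hi => h i (Nat.lt_succ_of_lt hi)]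

lemma isOpen_rs (n : ℕ) (s : List Bool) : IsOpen {z : ℕ → Bool | rs z n = s} := by
  rw [isOpen_iff_forall_mem_open]
  intro z hz
  refine ⟨⋂ i ∈ Finset.range n, {w : ℕ → Bool | w i = z i}, fun w hw => ?_, ?_, ?_⟩
  · show rs w n = s
    rw [← show rs z n = s from hz]
    exact rs_congr fun i hi => mem_iInter₂.1 hw i (Finset.mem_range.2 hi)
  · refine isOpen_biInter_finset fun i _ => ?_
    have h1 : Continuous fun w : ℕ → Bool => w i := continuous_apply i
    exact (isOpen_discrete ({z i} : Set Bool)).preimage h1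
  · exact mem_iInter₂.2 fun i _ => rfl

lemma cantor_cyl (O : Set (ℕ → Bool)) (hO : IsOpen O) (x : ℕ → Bool) (hx : x ∈ O) :
    ∃ k : ℕ, ∀ z : ℕ → Bool, (∀ i, i < k → z i = x i) → z ∈ O := by
  obtain ⟨I, u, hu, hI⟩ := isOpen_pi_iff.1 hO x hx
  refine ⟨I.sup id + 1, fun z hz => hI fun i hi => ?_⟩
  have h1 : i ≤ I.sup id := Finset.le_sup (f := id) hi
  rw [hz i (by omega)]
  exact (hu i hi).2

lemma cantor_crowded : Crowded (ℕ → Bool) := by
  intro x O hO hx
  obtain ⟨k, hk⟩ := cantor_cyl O hO x hx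
  refine ⟨Function.update x k (!x k), hk _ fun i hi => ?_, fun h => ?_⟩
  · rw [Function.update_of_ne (by omega)]
  · have h1 := congrFun h k
    rw [Function.update_self] at h1
    cases hb : x k <;> simp [hb] at h1

/-- avoiding nowhere dense closed sets inside an open set -/
lemma exists_avoid {ι : Type u}
    (hcov : ∀ N : ι → Set (ℕ → Bool), (∀ i, IsNowhereDense (N i)) → ∃ z, ∀ i, z ∉ N i)
    (N : ι → Set (ℕ → Bool)) (hN : ∀ i, IsClosed (N i)) (hN' : ∀ i, interior (N i) = ∅)
    (O : Set (ℕ → Bool)) (hO : IsOpen O) (hne : O.Nonempty) : ∃ z ∈ O, ∀ i, z ∉ N i := by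
  obtain ⟨x, hx⟩ := hne
  obtain ⟨k, hk⟩ := cantor_cyl O hO x hx
  let h : (ℕ → Bool) → (ℕ → Bool) := fun z i => if i < k then x i else z (i - k)
  have hc : Continuous h := by
    refine continuous_pi fun i => ?_
    by_cases hi : i < k
    · simp only [h, hi, if_true]; exact continuous_const
    · simp only [h, hi, if_false]; exact continuous_apply _
  have ho : IsOpenMap h := by
    intro V hV
    rw [isOpen_iff_forall_mem_open]
    rintro _ ⟨z, hz, rfl⟩
    obtain ⟨m, hm⟩ := cantor_cyl V hV z hz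
    refine ⟨{w | rs w (m + k) = rs (h z) (m + k)}, fun w hw => ?_, isOpen_rs _ _, rfl⟩
    have hw' : ∀ i, i < m + k → w i = h z i := by
      have key : ∀ n, rs w n = rs (h z) n → ∀ i, i < n → w i = h z i := by
        intro n
        induction n with
        | zero => intro _ i hi; omega
        | succ n ih =>
          intro hn i hi
          have h1 : w n :: rs w n = h z n :: rs (h z) n := hn
          rw [List.cons_eq_cons] at h1
          rcases Nat.lt_succ_iff_lt_or_eq.1 hi with h2 | h2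
          · exact ih h1.2 i h2
          · rw [h2]; exact h1.1
      exact key _ hw
    refine ⟨fun i => w (i + k), hm _ fun i hi => ?_, ?_⟩
    · rw [hw' (i + k) (by omega)]
      show (if i + k < k then x (i + k) else z (i + k - k)) = z i
      rw [if_neg (by omega), Nat.add_sub_cancel]
    · funext i
      show (if i < k then x i else w (i - k + k)) = w i
      by_cases hi : i < k
      · rw [if_pos hi, hw' i (by omega)]
        show x i = if i < k then x i else _
        rw [if_pos hi]
      · rw [if_neg hi, Nat.sub_add_cancel (by omega)]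
  obtain ⟨z, hz⟩ := hcov (fun i => h ⁻¹' N i) fun i => by
    show interior (closure (h ⁻¹' N i)) = ∅
    rw [((hN i).preimage hc).closure_eq, ← ho.preimage_interior_eq_interior_preimage hc, hN' i,
      preimage_empty]
  refine ⟨h z, hk _ fun i hi => ?_, hz⟩
  show (if i < k then x i else _) = x i
  rw [if_pos hi]

end cantor

section irr

variable {E : Type u} [TopologicalSpace E] [CompactSpace E] [T2Space E] {g : E → ℕ → Bool}

/-- the largest set with preimage in `U` -/
def sh (g : E → ℕ → Bool) (U : Set E) : Set (ℕ → Bool) := (g '' Uᶜ)ᶜ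

lemma sh_open (hg : Continuous g) {U : Set E} (hU : IsOpen U) : IsOpen (sh g U) :=
  ((hg.isClosedMap) _ hU.isClosed_compl).isOpen_compl

omit [TopologicalSpace E] [CompactSpace E] [T2Space E] in
lemma mem_of_sh {U : Set E} {e : E} (h : g e ∈ sh g U) : e ∈ U := by
  by_contra hcon
  exact h ⟨e, hcon, rfl⟩

omit [CompactSpace E] [T2Space E] in
lemma sh_nonempty (hirr : ∀ E₀ : Set E, E₀ ≠ Set.univ → IsClosed E₀ → g '' E₀ ≠ Set.univ)
    {U : Set E} (hU : IsOpen U) (hne : U.Nonempty) : (sh g U).Nonempty := by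
  have h1 : Uᶜ ≠ Set.univ := by
    obtain ⟨x, hx⟩ := hne
    intro h
    have h2 : x ∈ Uᶜ := by rw [h]; exact mem_univ x
    exact h2 hx
  exact nonempty_compl.2 (hirr _ h1 hU.isClosed_compl)

/-- The domain of an irreducible map onto the Cantor set is crowded. -/
lemma irr_crowded (hg : Continuous g) (hs : Function.Surjective g)
    (hirr : ∀ E₀ : Set E, E₀ ≠ Set.univ → IsClosed E₀ → g '' E₀ ≠ Set.univ) : Crowded E := by
  intro x O hO hx
  by_contra hcon
  push Not at hcon
  obtain ⟨z, hz⟩ := sh_nonempty hirr hO ⟨x, hx⟩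
  obtain ⟨w, hw, hwz⟩ := cantor_crowded z _ (sh_open hg hO) hz
  obtain ⟨a, rfl⟩ := hs z
  obtain ⟨b, rfl⟩ := hs w
  apply hwz
  rw [hcon a (mem_of_sh hz), hcon b (mem_of_sh hw)]

/-- Points with one-point fibres. -/
lemma irr_openSeq {ι : Type u}
    (hcov : ∀ N : ι → Set (ℕ → Bool), (∀ i, IsNowhereDense (N i)) → ∃ z, ∀ i, z ∉ N i)
    (hg : Continuous g) (hs : Function.Surjective g)
    (hirr : ∀ E₀ : Set E, E₀ ≠ Set.univ → IsClosed E₀ → g '' E₀ ≠ Set.univ)
    (U : ι → Set E) (hU : ∀ i, IsOpen (U i))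
    (hsep : ∀ x y : E, x ≠ y → ∃ i j, x ∈ U i ∧ y ∈ U j ∧ Disjoint (U i) (U j)) : OpenSeq E := by
  intro O hO hne
  obtain ⟨z, hz, hzN⟩ := exists_avoid hcov (fun i => frontier (sh g (U i)))
    (fun i => isClosed_frontier)
    (fun i => by
      rw [← frontier_compl]
      exact interior_frontier (sh_open hg (hU i)).isClosed_compl)
    (sh g O) (sh_open hg hO) (sh_nonempty hirr hO hne)
  obtain ⟨e, rfl⟩ := hs z
  -- the fibre is a point
  have hcl : ∀ (x : E) (i : ι), x ∈ U i → g x ∈ closure (sh g (U i)) := by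
    intro x i hx
    rw [mem_closure_iff]
    intro W hW hxW
    obtain ⟨w, hw⟩ := sh_nonempty hirr ((hU i).inter (hW.preimage hg)) ⟨x, hx, hxW⟩
    obtain ⟨a, rfl⟩ := hs w
    have ha := mem_of_sh hw
    refine ⟨g a, ha.2, fun hcon => ?_⟩
    obtain ⟨b, hb, hba⟩ := hcon
    exact hw ⟨b, fun h => hb h.1, hba⟩
  have hfib : ∀ x : E, g x = g e → x = e := by
    intro x hx
    by_contra hne
    obtain ⟨i, j, hi, hj, hd⟩ := hsep x e hne
    have h1 := hcl x i hi
    have h2 := hcl e j hj
    rw [hx] at h1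
    apply hzN i
    refine ⟨h1, fun h3 => ?_⟩
    rw [(sh_open hg (hU i)).interior_eq] at h3
    obtain ⟨w, hw1, hw2⟩ := mem_closure_iff.1 h2 _ (sh_open hg (hU i)) h3
    obtain ⟨a, rfl⟩ := hs w
    exact hd.le_bot ⟨mem_of_sh hw1, mem_of_sh hw2⟩
  refine ⟨e, mem_of_sh hz, fun n => g ⁻¹' {w | rs w n = rs (g e) n},
    fun n => (isOpen_rs n _).preimage hg, fun n => ⟨e, rfl⟩, fun V hV heV => ?_⟩
  have h4 : g e ∈ sh g V := by
    rintro ⟨x, hx, hxe⟩
    rw [hfib x hxe] at hx
    exact hx heV
  obtain ⟨k, hk⟩ := cantor_cyl _ (sh_open hg hV) _ h4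
  refine ⟨k, fun n hn x hx => mem_of_sh (hk _ fun i hi => ?_)⟩
  have key : ∀ (n : ℕ) (w v : ℕ → Bool), rs w n = rs v n → ∀ i, i < n → w i = v i := by
    intro n w v
    induction n with
    | zero => intro _ i hi; omega
    | succ n ih =>
      intro hn i hi
      have h1 : w n :: rs w n = v n :: rs v n := hn
      rw [List.cons_eq_cons] at h1
      rcases Nat.lt_succ_iff_lt_or_eq.1 hi with h2 | h2
      · exact ih h1.2 i h2
      · rw [h2]; exact h1.1
  exact key n _ _ hx i (by omega)

end irr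

section scheme

variable {X : Type u} [TopologicalSpace X] [CompactSpace X] [T2Space X]

lemma split_step {P : Set X} (hP : ∀ x ∈ P, x ∈ closure (P \ {x})) (O : Set X) (hO : IsOpen O)
    (hne : (O ∩ P).Nonempty) : ∃ S : Bool → Set X, (∀ b, IsOpen (S b)) ∧
      (∀ b, (S b ∩ P).Nonempty) ∧ (∀ b, closure (S b) ⊆ O) ∧
      Disjoint (closure (S false)) (closure (S true)) := by
  obtain ⟨x, hxO, hxP⟩ := hne
  obtain ⟨z, hzO, hzP, hzx⟩ := mem_closure_iff.1 (hP x hxP) O hO hxO
  obtain ⟨A, B, hA, hB, hxA, hzB, hAB⟩ := t2_separation (show x ≠ z from fun h => hzx h.symm)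
  obtain ⟨K, hK, hKc, hKs⟩ := exists_mem_nhds_isClosed_subset ((hO.inter hA).mem_nhds ⟨hxO, hxA⟩)
  obtain ⟨L, hL, hLc, hLs⟩ := exists_mem_nhds_isClosed_subset ((hO.inter hB).mem_nhds ⟨hzO, hzB⟩)
  have hcK : closure (interior K) ⊆ O ∩ A := (closure_minimal interior_subset hKc).trans hKs
  have hcL : closure (interior L) ⊆ O ∩ B := (closure_minimal interior_subset hLc).trans hLs
  refine ⟨fun b => if b then interior L else interior K, ?_, ?_, ?_, ?_⟩
  · rintro (b | b)
    · exact isOpen_interior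
    · exact isOpen_interior
  · rintro (b | b)
    · exact ⟨x, mem_interior_iff_mem_nhds.2 hK, hxP⟩
    · exact ⟨z, mem_interior_iff_mem_nhds.2 hL, hzP⟩
  · rintro (b | b)
    · exact hcK.trans inter_subset_left
    · exact hcL.trans inter_subset_left
  · exact hAB.mono (hcK.trans inter_subset_right) (hcL.trans inter_subset_right)

/-- A closed crowded set contains a closed set with a continuous surjection onto the Cantor set. -/
lemma exists_map {P : Set X} (hPc : IsClosed P) (hne : P.Nonempty)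
    (hP : ∀ x ∈ P, x ∈ closure (P \ {x})) :
    ∃ (D : Type u) (_ : TopologicalSpace D) (_ : CompactSpace D) (_ : T2Space D) (j : D → X)
      (π : D → ℕ → Bool), Continuous j ∧ Function.Injective j ∧ Continuous π ∧
        Function.Surjective π := by
  classical
  have step : ∀ O : Set X, ∃ S : Bool → Set X, IsOpen O → (O ∩ P).Nonempty →
      (∀ b, IsOpen (S b)) ∧ (∀ b, (S b ∩ P).Nonempty) ∧ (∀ b, closure (S b) ⊆ O) ∧
      Disjoint (closure (S false)) (closure (S true)) := by
    intro O
    by_cases h : IsOpen O ∧ (O ∩ P).Nonempty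
    · obtain ⟨S, hS⟩ := split_step hP O h.1 h.2
      exact ⟨S, fun _ _ => hS⟩
    · exact ⟨fun _ => ∅, fun h1 h2 => absurd ⟨h1, h2⟩ h⟩
  choose S hS using step
  let O : List Bool → Set X := fun s => List.rec Set.univ (fun b _ T => S T b) s
  have O0 : O [] = Set.univ := rfl
  have OS : ∀ b s, O (b :: s) = S (O s) b := fun _ _ => rfl
  have hO : ∀ s, IsOpen (O s) ∧ (O s ∩ P).Nonempty := by
    intro s
    induction s with
    | nil => exact ⟨isOpen_univ, by rw [O0, univ_inter]; exact hne⟩
    | cons b s ih =>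
      rw [OS]
      exact ⟨(hS _ ih.1 ih.2).1 b, (hS _ ih.1 ih.2).2.1 b⟩
  have hsub : ∀ b s, closure (O (b :: s)) ⊆ O s := fun b s => by
    rw [OS]; exact (hS _ (hO s).1 (hO s).2).2.2.1 b
  have hdis : ∀ s, Disjoint (closure (O (false :: s))) (closure (O (true :: s))) := fun s => by
    rw [OS, OS]; exact (hS _ (hO s).1 (hO s).2).2.2.2
  let R : Set (X × (ℕ → Bool)) := {p | p.1 ∈ P ∧ ∀ n, p.1 ∈ closure (O (rs p.2 n))}
  have hR : IsClosed R := by
    have h1 : R = (Prod.fst ⁻¹' P) ∩ ⋂ n, {p | p.1 ∈ closure (O (rs p.2 n))} := by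
      ext p
      simp only [R, mem_inter_iff, mem_preimage, mem_iInter]
      rfl
    rw [h1]
    refine (hPc.preimage continuous_fst).inter (isClosed_iInter fun n => ?_)
    rw [← isOpen_compl_iff]
    have h2 : {p : X × (ℕ → Bool) | p.1 ∈ closure (O (rs p.2 n))}ᶜ =
        ⋃ s, (closure (O s))ᶜ ×ˢ {z | rs z n = s} := by
      ext p
      simp only [mem_compl_iff, mem_iUnion, mem_prod]
      constructor
      · intro h
        exact ⟨rs p.2 n, h, rfl⟩
      · rintro ⟨s, h3, h4⟩ h5
        apply h3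
        rw [← show rs p.2 n = s from h4]
        exact h5
    rw [h2]
    exact isOpen_iUnion fun s => isClosed_closure.isOpen_compl.prod (isOpen_rs n s)
  have hcR : CompactSpace R := isCompact_iff_compactSpace.1 hR.isCompact
  refine ⟨R, inferInstance, hcR, inferInstance, fun p => p.1.1, fun p => p.1.2,
    continuous_fst.comp continuous_subtype_val, ?_, continuous_snd.comp continuous_subtype_val, ?_⟩
  · rintro ⟨⟨x, z⟩, hx, hz⟩ ⟨⟨x', w⟩, hx', hw⟩ hxx
    have hxx' : x = x' := hxx
    subst hxx'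
    have hzw : z = w := by
      have key : ∀ n, ∀ i, i < n → z i = w i := by
        intro n
        induction n with
        | zero => intro i hi; omega
        | succ n ih =>
          intro i hi
          rcases Nat.lt_succ_iff_lt_or_eq.1 hi with h | h
          · exact ih i h
          · subst h
            have h1 : rs z i = rs w i := rs_congr ih
            have h2 : x ∈ closure (O (z i :: rs z i)) := hz (i + 1)
            have h3 : x ∈ closure (O (w i :: rs w i)) := hw (i + 1)
            rw [← h1] at h3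
            by_contra hne
            cases hzi : z i <;> cases hwi : w i <;> rw [hzi] at h2 <;> rw [hwi] at h3
            · exact hne (hzi.trans hwi.symm)
            · exact (hdis _).le_bot ⟨h2, h3⟩
            · exact (hdis _).le_bot ⟨h3, h2⟩
            · exact hne (hzi.trans hwi.symm)
      funext i
      exact key (i + 1) i (Nat.lt_succ_self i)
    subst hzw
    rfl
  · intro z
    obtain ⟨x, hx⟩ := IsCompact.nonempty_iInter_of_sequence_nonempty_isCompact_isClosed
      (fun n => P ∩ closure (O (rs z n)))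
      (fun n => inter_subset_inter_right _ ((hsub (z n) (rs z n)).trans subset_closure))
      (fun n => by
        obtain ⟨y, hy1, hy2⟩ := (hO (rs z n)).2
        exact ⟨y, hy2, subset_closure hy1⟩)
      (hPc.inter isClosed_closure).isCompact (fun n => hPc.inter isClosed_closure)
    rw [mem_iInter] at hx
    exact ⟨⟨(x, z), (hx 0).1, fun n => (hx n).2⟩, rfl⟩

/-- Irreducible maps. -/
lemma exists_irr {D : Type u} [TopologicalSpace D] [CompactSpace D] {π : D → ℕ → Bool}
    (hπ : Continuous π) (hπ' : Function.Surjective π) :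
    ∃ (E : Set D) (_ : CompactSpace E) (g : E → ℕ → Bool), Continuous g ∧
      Function.Surjective g ∧
      ∀ E₀ : Set E, E₀ ≠ Set.univ → IsClosed E₀ → g '' E₀ ≠ Set.univ := by
  have ht1 : T1Space (ULift.{u} (ℕ → Bool)) := (Homeomorph.ulift.{u}).isEmbedding.t1Space
  obtain ⟨E, cE, hE, hirr⟩ := exists_compact_surjective_zorn_subset
    (A := ULift.{u} (ℕ → Bool)) (D := D) (X := fun d => ULift.up (π d))
    (continuous_uliftUp.comp hπ) (fun a => by
      obtain ⟨d, hd⟩ := hπ' a.down
      exact ⟨d, congrArg ULift.up hd⟩)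
  refine ⟨E, cE, fun e => π e.1, hπ.comp continuous_subtype_val, ?_, ?_⟩
  · intro z
    have h1 : ULift.up z ∈ (fun d => ULift.up.{u} (π d)) '' E := by rw [hE]; exact mem_univ _
    obtain ⟨d, hd, hd'⟩ := h1
    exact ⟨⟨d, hd⟩, ULift.up_injective hd'⟩
  · intro E₀ h1 h2 h3
    apply hirr E₀ h1 h2
    rw [eq_univ_iff_forall]
    intro a
    have h4 : a.down ∈ (fun e : E => π e.1) '' E₀ := by rw [h3]; exact mem_univ _
    obtain ⟨e, he, he'⟩ := h4
    exact ⟨e, he, congrArg ULift.up he'⟩

/-- c.o. spaces of weight less than the covering number of the meagre ideal -/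
theorem scat_of_weight
    (hco : ∀ F : Set X, IsClosed F → ∃ U : Set X, IsClopen U ∧ Nonempty (F ≃ₜ U))
    (B : Set (Set X)) (hB : TopologicalSpace.IsTopologicalBasis B)
    (hcov : ∀ N : B → Set (ℕ → Bool), (∀ b, IsNowhereDense (N b)) → ∃ z, ∀ b, z ∉ N b) :
    Scat X := by
  classical
  by_contra h
  obtain ⟨D, tD, cD, t2D, j, π, hj, hj', hπ, hπ'⟩ :=
    exists_map isClosed_kernel (kernel_of_not_scat h) kernel_crowded
  obtain ⟨E, cE, g, hg, hgs, hgi⟩ := exists_irr hπ hπ'
  have hne : Nonempty E := ⟨(hgs fun _ => false).choose⟩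
  have hje : Continuous fun e : E => j e.1 := hj.comp continuous_subtype_val
  have hC := irr_crowded hg hgs hgi
  have hH : OpenSeq E := by
    refine irr_openSeq (ι := B) hcov hg hgs hgi (fun b => (fun e : E => j e.1) ⁻¹' b.1)
      (fun b => (hB.isOpen b.2).preimage hje) fun x y hxy => ?_
    have h1 : j x.1 ≠ j y.1 := fun h' => hxy (Subtype.ext (hj' h'))
    obtain ⟨A, A', hA, hA', hxA, hyA, hAA⟩ := t2_separation h1
    obtain ⟨b, hb, hxb, hbA⟩ := hB.exists_subset_of_mem_open hxA hA
    obtain ⟨b', hb', hyb, hbA'⟩ := hB.exists_subset_of_mem_open hyA hA'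
    exact ⟨⟨b, hb⟩, ⟨b', hb'⟩, hxb, hyb, (hAA.mono hbA hbA').preimage _⟩
  obtain ⟨D₀, -, hD1, hD2⟩ := main_card hco hC hH (fun e : E => j e.1) hje
    (fun x y hxy => Subtype.ext (hj' hxy))
  have h1 := disc_le_iso hco D₀ hD2
  rw [hD1] at h1
  have h2 : #{x : X | IsOpen ({x} : Set X)} ≤ #B := by
    have h3 : ∀ x : {x : X | IsOpen ({x} : Set X)}, ({x.1} : Set X) ∈ B := by
      rintro ⟨x, hx⟩
      obtain ⟨b, hb, hxb, hbx⟩ := hB.exists_subset_of_mem_open (mem_singleton x) hx
      have h4 : b = {x} := Subset.antisymm hbx (singleton_subset_iff.2 hxb)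
      rw [← h4]; exact hb
    refine Cardinal.mk_le_of_injective (f := fun x : {x : X | IsOpen ({x} : Set X)} =>
      (⟨{x.1}, h3 x⟩ : B)) fun x y hxy => ?_
    exact Subtype.ext (singleton_injective (congrArg Subtype.val hxy))
  have h3 : #(ULift.{u} (ℕ → Bool)) = 𝔠 := by
    rw [Cardinal.mk_uLift, ← Cardinal.lift_continuum.{0, u}]
    congr 1
    simp
  have h4 : #(ULift.{u} (ℕ → Bool)) ≤ #B := by rw [h3]; exact h1.trans h2
  obtain ⟨f⟩ := h4
  have h5 : Function.Surjective (Function.invFun f) := Function.invFun_surjective f.injective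
  obtain ⟨z, hz⟩ := hcov (fun b => {(Function.invFun f b).down}) fun b => by
    show interior (closure _) = ∅
    rw [isClosed_singleton.closure_eq, ← Set.not_nonempty_iff_eq_empty]
    rintro ⟨w, hw⟩
    obtain ⟨w', hw', hne'⟩ := cantor_crowded w _ isOpen_interior hw
    have e1 : w' ∈ ({(Function.invFun f b).down} : Set (ℕ → Bool)) := interior_subset hw'
    have e2 : w ∈ ({(Function.invFun f b).down} : Set (ℕ → Bool)) := interior_subset hw
    exact hne' ((mem_singleton_iff.1 e1).trans (mem_singleton_iff.1 e2).symm)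
  obtain ⟨b, hb⟩ := h5 ⟨z⟩
  apply hz b
  rw [hb]
  exact mem_singleton z

end scheme

end Pool.Agent.Lib.MP_77266e_gt
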